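import Pool.Agent.H70.Ore

namespace Pool.Agent.Results.MP_62e324_al.RSRC

open Pool.Agent.H70.Ore

universe u v

theorem result (R : Type u) [Ring R] (σ : R →+* R) (δ : R →+ R)
    (hδ : ∀ r s, δ (r * s) = δ r * s + σ r * δ s) :
    (∃ (A : Type u) (_ : Ring A) (ι : R →+* A) (x : A), IsOre σ δ ι x) ∧
    ∀ (A : Type v) [Ring A] (ι : R →+* A) (x : A), IsOre σ δ ι x → Function.Surjective σ →
      StrongRankCondition Rᵐᵒᵖ → StrongRankCondition Aᵐᵒᵖ :=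
  ⟨⟨_, _, exists_ore hδ⟩, fun _ _ _ _ h hσ _ => main h hσ⟩

end Pool.Agent.Results.MP_62e324_al.RSRC
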